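import Pool.Agent.helper45.SGK.Spec

set_option autoImplicit false

namespace Pool.Agent.SGK

open Finset Pool.Agent.helper38.Neg Pool.Agent.helper55.NT
open Pool.Agent.SGC (Sg SCirc Ext Mv hw RN Solv stA stB)

theorem GST_rel {n : ℕ} {F G : Set (Fn n)} {m r m' : ℕ} (h : Rel F m r G) (hm : m ≤ m') (hr : r ≤ m') : RN F m' G :=
  h.mono le_rfl subset_rfl hm hr

/-- the first row with an entry 1 -/
theorem GST_piv {m t : ℕ} (a : Fin m → Fin t → ZMod 2) (i : Fin t) (r : Fin m) :
    Pool.Agent.SGC.piv a i r = 1 ↔ a r i = 1 ∧ ∀ r' < r, a r' i = 0 := by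
  unfold Pool.Agent.SGC.piv
  by_cases h : a r i = 1 ∧ ∀ r' < r, a r' i = 0
  · rw [if_pos h]
    exact ⟨fun _ => h, fun _ => rfl⟩
  · rw [if_neg h]
    exact ⟨fun h0 => absurd h0 (by decide), fun h1 => absurd h1 h⟩

theorem GST_sum {m t : ℕ} (a : Fin m → Fin t → ZMod 2) (i : Fin t) (c : Fin m → ZMod 2) :
    ∑ r', Pool.Agent.SGC.piv a i r' * c r' = 1 ↔ ∃ r', Pool.Agent.SGC.piv a i r' = 1 ∧ c r' = 1 := by
  have two : ∀ z : ZMod 2, z ≠ 1 → z = 0 := by decide
  by_cases h : ∃ r', Pool.Agent.SGC.piv a i r' = 1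
  · obtain ⟨r₀, h0⟩ := h
    have huniq : ∀ r', r' ≠ r₀ → Pool.Agent.SGC.piv a i r' = 0 := by
      intro r' hr'
      apply two
      intro h1
      obtain ⟨h2, h3⟩ := (GST_piv a i r₀).1 h0
      obtain ⟨h4, h5⟩ := (GST_piv a i r').1 h1
      rcases lt_or_gt_of_ne hr' with h6 | h6
      · rw [h3 r' h6] at h4
        exact absurd h4 (by decide)
      · rw [h5 r₀ h6] at h2
        exact absurd h2 (by decide)
    have hs : ∑ r', Pool.Agent.SGC.piv a i r' * c r' = c r₀ := by
      rw [Finset.sum_eq_single r₀]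
      · rw [h0, one_mul]
      · intro r' _ hr'
        rw [huniq r' hr', zero_mul]
      · intro hh
        exact absurd (Finset.mem_univ _) hh
    rw [hs]
    constructor
    · intro h1
      exact ⟨r₀, h0, h1⟩
    · rintro ⟨r', h1, h2⟩
      by_cases h3 : r' = r₀
      · rw [← h3]
        exact h2
      · rw [huniq r' h3] at h1
        exact absurd h1 (by decide)
  · have hz : ∀ r', Pool.Agent.SGC.piv a i r' = 0 := fun r' => two _ fun h1 => h ⟨r', h1⟩
    constructor
    · intro h1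
      rw [Finset.sum_eq_zero fun r' _ => by rw [hz r', zero_mul]] at h1
      exact absurd h1 (by decide)
    · rintro ⟨r', h1, -⟩
      exact absurd ⟨r', h1⟩ h

/-- disjunction of conjunctions -/
theorem GST_or {n m : ℕ} (F : Set (Fn n)) (u v : Fin m → Fn n) (hu : ∀ r, u r ∈ F) (hv : ∀ r, v r ∈ F) (j : ℕ)
    (hj : j ≤ m) :
    RN F (2 * j + 1) {fun x => decide (∃ r : Fin m, r.val < j ∧ u r x = true ∧ v r x = true)} := by
  induction j with
  | zero =>
    refine RN.mono (GST_rel (m' := 1) (Rel.const F false) le_rfl (by omega)) le_rfl ?_ (by omega)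
    rintro g rfl
    rw [Set.mem_singleton_iff]
    funext x
    simp
  | succ j ih =>
    have ih' := ih (by omega)
    set r₀ : Fin m := ⟨j, by omega⟩ with hr₀
    set O : Fn n := fun x => decide (∃ r : Fin m, r.val < j ∧ u r x = true ∧ v r x = true) with hO
    have h1 : RN (F ∪ {O}) 1 {fun x => u r₀ x && v r₀ x} :=
      GST_rel (Rel.and (u := u r₀) (v := v r₀) (Or.inl (hu r₀)) (Or.inl (hv r₀))) le_rfl (by omega)
    have h2 : RN ((F ∪ {O}) ∪ {fun x => u r₀ x && v r₀ x}) 1 {fun x => O x || (u r₀ x && v r₀ x)} :=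
      GST_rel (Rel.or (u := O) (v := fun x => u r₀ x && v r₀ x) (Or.inl (Or.inr rfl)) (Or.inr rfl)) le_rfl (by omega)
    have h3 := RN.trans' h1 h2
    have h4 := RN.trans' ih' h3
    refine RN.mono h4 le_rfl ?_ (by omega)
    rintro g rfl
    rw [Set.mem_singleton_iff]
    funext x
    rw [Bool.eq_iff_iff]
    simp only [hO, Bool.or_eq_true, Bool.and_eq_true, decide_eq_true_eq]
    constructor
    · rintro ⟨r, hr, h5, h6⟩
      by_cases hrj : r.val = j
      · have : r = r₀ := Fin.ext hrj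
        rw [this] at h5 h6
        exact Or.inr ⟨h5, h6⟩
      · exact Or.inl ⟨r, by omega, h5, h6⟩
    · rintro (⟨r, hr, h5, h6⟩ | ⟨h5, h6⟩)
      · exact ⟨r, by omega, h5, h6⟩
      · exact ⟨r₀, by simp [hr₀], h5, h6⟩

theorem GST_or' {n m : ℕ} (F : Set (Fn n)) (u v : Fin m → Fn n) (hu : ∀ r, u r ∈ F) (hv : ∀ r, v r ∈ F) :
    RN F (2 * m + 1) {fun x => decide (∃ r : Fin m, u r x = true ∧ v r x = true)} := by
  refine RN.mono (GST_or F u v hu hv m le_rfl) le_rfl ?_ le_rfl
  rintro g rfl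
  rw [Set.mem_singleton_iff]
  funext x
  rw [Bool.eq_iff_iff]
  simp only [decide_eq_true_eq]
  constructor
  · rintro ⟨r, h5, h6⟩
    exact ⟨r, r.2, h5, h6⟩
  · rintro ⟨r, -, h5, h6⟩
    exact ⟨r, h5, h6⟩

/-- one pivot indicator -/
theorem GST_P {n m : ℕ} (F : Set (Fn n)) (u : Fin m → Fn n) (hu : ∀ r, u r ∈ F) (r : Fin m) :
    RN F (2 * m + 3) {fun x => u r x && !(decide (∃ r' : Fin m, r'.val < r.val ∧ u r' x = true ∧ u r' x = true))} := by
  set O : Fn n := fun x => decide (∃ r' : Fin m, r'.val < r.val ∧ u r' x = true ∧ u r' x = true) with hO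
  have h0 : RN F (2 * r.val + 1) {O} := GST_or F u u hu hu r.val r.2.le
  have h1 : RN (F ∪ {O}) 1 {fun x => !(O x)} := GST_rel (Rel.not (Or.inr rfl)) le_rfl le_rfl
  have h2 : RN ((F ∪ {O}) ∪ {fun x => !(O x)}) 1 {fun x => u r x && !(O x)} :=
    GST_rel (Rel.and (u := u r) (v := fun x => !(O x)) (Or.inl (Or.inl (hu r))) (Or.inr rfl)) le_rfl (by omega)
  have h3 := RN.trans' h0 (RN.trans' h1 h2)
  have := r.2
  exact RN.mono h3 le_rfl subset_rfl (by omega)

/-- `p + q s` -/
theorem GST_xor {n : ℕ} (F : Set (Fn n)) (p q s : Fn n) (hp : p ∈ F) (hq : q ∈ F) (hs : s ∈ F) :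
    RN F 6 {fun x => xor (p x) (q x && s x)} := by
  set c : Fn n := fun x => q x && s x with hc
  have h1 : RN F 1 {c} := GST_rel (Rel.and (u := q) (v := s) hq hs) le_rfl (by omega)
  set F1 := F ∪ {c} with hF1
  have hp1 : p ∈ F1 := Or.inl hp
  have hc1 : c ∈ F1 := Or.inr rfl
  have h2 : RN F1 2 ({fun x => !(p x)} ∪ {fun x => !(c x)}) :=
    RN.union (m := 1) (m' := 1) (GST_rel (Rel.not hp1) le_rfl le_rfl) (GST_rel (Rel.not hc1) le_rfl le_rfl)
  set F2 := F1 ∪ ({fun x => !(p x)} ∪ {fun x => !(c x)}) with hF2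
  have h3 : RN F2 2 ({fun x => p x && !(c x)} ∪ {fun x => !(p x) && c x}) :=
    RN.union (m := 1) (m' := 1)
      (GST_rel (Rel.and (u := p) (v := fun x => !(c x)) (Or.inl hp1) (Or.inr (Or.inr rfl))) le_rfl (by omega))
      (GST_rel (Rel.and (u := fun x => !(p x)) (v := c) (Or.inr (Or.inl rfl)) (Or.inl hc1)) le_rfl (by omega))
  have h4 : RN (F2 ∪ ({fun x => p x && !(c x)} ∪ {fun x => !(p x) && c x})) 1
      {fun x => (p x && !(c x)) || (!(p x) && c x)} :=
    GST_rel (Rel.or (u := fun x => p x && !(c x)) (v := fun x => !(p x) && c x) (Or.inr (Or.inl rfl))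
      (Or.inr (Or.inr rfl))) le_rfl (by omega)
  have h5 := RN.trans' h1 (RN.trans' h2 (RN.trans' h3 h4))
  refine RN.mono h5 le_rfl ?_ (by omega)
  rintro g rfl
  rw [Set.mem_singleton_iff]
  funext x
  show xor (p x) (c x) = ((p x && !(c x)) || (!(p x) && c x))
  cases p x <;> cases c x <;> rfl

/-- indexed families -/
theorem GST_fam {n : ℕ} {ι : Type} [Fintype ι] (F : Set (Fn n)) (u : ι → Fn n) (k : ℕ) (h : ∀ j, RN F k {u j}) :
    RN F (Fintype.card ι * k) (Set.range u) := by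
  refine RN.mono (RN.biUnion Finset.univ (fun j => {u j}) fun j _ => h j) le_rfl ?_ ?_
  · rintro g ⟨j, rfl⟩
    simp only [Set.mem_iUnion]
    exact ⟨j, Finset.mem_univ j, rfl⟩
  · rw [Finset.card_univ]

theorem GST : GST_stmt := by
  intro n m t a b i
  set A : Fin m × Fin t → Fn n := fun q x => decide (a x q.1 q.2 = 1) with hA
  set B : Fin m → Fn n := fun r x => decide (b x r = 1) with hB
  set F : Set (Fn n) := Set.range A ∪ Set.range B with hF
  have hAF : ∀ q, A q ∈ F := fun q => Or.inl ⟨q, rfl⟩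
  have hBF : ∀ r, B r ∈ F := fun r => Or.inr ⟨r, rfl⟩
  set u : Fin m → Fn n := fun r => A (r, i) with hu
  set P : Fin m → Fn n := fun r x => u r x && !(decide (∃ r' : Fin m, r'.val < r.val ∧ u r' x = true ∧ u r' x = true))
    with hP
  have two : ∀ z : ZMod 2, z ≠ 1 ↔ z = 0 := by decide
  have hPp : ∀ r x, P r x = true ↔ Pool.Agent.SGC.piv (a x) i r = 1 := by
    intro r x
    rw [GST_piv]
    simp only [hP, hu, hA, Bool.and_eq_true, Bool.not_eq_true', decide_eq_true_eq, decide_eq_false_iff_not, and_self,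
      not_exists, not_and]
    constructor
    · rintro ⟨h1, h2⟩
      exact ⟨h1, fun r' hr' => (two _).1 (h2 r' hr')⟩
    · rintro ⟨h1, h2⟩
      exact ⟨h1, fun r' hr' => (two _).2 (h2 r' hr')⟩
  have s1 : RN F (m * (2 * m + 3)) (Set.range P) := by
    have := GST_fam F P (2 * m + 3) fun r => GST_P F u (fun r => hAF _) r
    rwa [Fintype.card_fin] at this
  set F1 : Set (Fn n) := F ∪ Set.range P with hF1
  set R : Fin t → Fn n := fun i' x => decide (∃ r : Fin m, P r x = true ∧ A (r, i') x = true) with hR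
  set RB : Fn n := fun x => decide (∃ r : Fin m, P r x = true ∧ B r x = true) with hRB
  have s2 : RN F1 (t * (2 * m + 1) + (2 * m + 1)) (Set.range R ∪ {RB}) := by
    refine RN.union ?_ ?_
    · have := GST_fam F1 R (2 * m + 1) fun i' =>
        GST_or' F1 P (fun r => A (r, i')) (fun r => Or.inr ⟨r, rfl⟩) (fun r => Or.inl (hAF _))
      rwa [Fintype.card_fin] at this
    · exact GST_or' F1 P B (fun r => Or.inr ⟨r, rfl⟩) (fun r => Or.inl (hBF _))
  set F2 : Set (Fn n) := F1 ∪ (Set.range R ∪ {RB}) with hF2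
  have hRp : ∀ i' x, R i' x = decide (∑ r', Pool.Agent.SGC.piv (a x) i r' * a x r' i' = 1) := by
    intro i' x
    rw [Bool.eq_iff_iff]
    simp only [hR, decide_eq_true_eq]
    rw [GST_sum (a x) i fun r' => a x r' i']
    constructor
    · rintro ⟨r, h1, h2⟩
      exact ⟨r, (hPp r x).1 h1, by simpa [hA] using h2⟩
    · rintro ⟨r, h1, h2⟩
      exact ⟨r, (hPp r x).2 h1, by simpa [hA] using h2⟩
  have hRBp : ∀ x, RB x = decide (∑ r', Pool.Agent.SGC.piv (a x) i r' * b x r' = 1) := by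
    intro x
    rw [Bool.eq_iff_iff]
    simp only [hRB, decide_eq_true_eq]
    rw [GST_sum (a x) i fun r' => b x r']
    constructor
    · rintro ⟨r, h1, h2⟩
      exact ⟨r, (hPp r x).1 h1, by simpa [hB] using h2⟩
    · rintro ⟨r, h1, h2⟩
      exact ⟨r, (hPp r x).2 h1, by simpa [hB] using h2⟩
  have hx : ∀ p q s : ZMod 2, decide (p + q * s = 1) = xor (decide (p = 1)) (decide (q = 1) && decide (s = 1)) := by
    decide
  set GA : Fin m × Fin t → Fn n := fun q x => decide (stA (a x) i q.1 q.2 = 1) with hGA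
  set GB : Fin m → Fn n := fun r x => decide (stB (a x) (b x) i r = 1) with hGB
  have s3 : RN F2 (m * t * 6 + m * 6) (Set.range GA ∪ Set.range GB) := by
    refine RN.union ?_ ?_
    · have h1 := GST_fam F2 GA 6 fun q => by
        have h2 := GST_xor F2 (A q) (u q.1) (R q.2) (Or.inl (Or.inl (hAF _))) (Or.inl (Or.inl (hAF _)))
          (Or.inr (Or.inl ⟨q.2, rfl⟩))
        refine RN.mono h2 le_rfl ?_ le_rfl
        rintro g rfl
        rw [Set.mem_singleton_iff]
        funext x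
        rw [hRp]
        exact hx _ _ _
      rwa [Fintype.card_prod, Fintype.card_fin, Fintype.card_fin] at h1
    · have h1 := GST_fam F2 GB 6 fun r => by
        have h2 := GST_xor F2 (B r) (u r) RB (Or.inl (Or.inl (hBF _))) (Or.inl (Or.inl (hAF _))) (Or.inr (Or.inr rfl))
        refine RN.mono h2 le_rfl ?_ le_rfl
        rintro g rfl
        rw [Set.mem_singleton_iff]
        funext x
        rw [hRBp]
        exact hx _ _ _
      rwa [Fintype.card_fin] at h1
  have h := RN.trans' s1 (RN.trans' s2 s3)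
  refine RN.mono h le_rfl subset_rfl ?_
  have e1 : (m + t + 2) ^ 3 = (m + t + 2) ^ 2 * (m + t + 2) := by ring
  have e2 : (m + t + 2) ^ 2 ≤ (m + t + 2) ^ 2 * (m + t + 2) := Nat.le_mul_of_pos_right _ (by omega)
  rw [e1]
  nlinarith [e2, Nat.zero_le m, Nat.zero_le t, Nat.zero_le (m * t), Nat.zero_le (m * m), Nat.zero_le (t * t)]

end Pool.Agent.SGK
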